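import Pool.Agent.Q296.Cyc.Main

/-!
# Convolution walks on cycles: the product condition does not imply cutoff

There are moduli `N_k → ∞` and symmetric probability measures `μ_k` on `ℤ/N_k` whose convolution
walks are irreducible and aperiodic, have relaxation times at most `8` and satisfy the product
condition, while `T_mix(ε)/T_mix(1-ε) → log(1/ε)/log(1/(1-ε)) > 1` for every `ε ∈ (0,1/2)`.
-/

namespace Pool.Agent.Results.MP_7e070a_pr.NoCutoffOnCycles

open Q296.Cyc Filter Topology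

theorem result :
    ∃ (N : ℕ → ℕ) (_ : ∀ k, NeZero (N k)) (μ : ∀ k, ZMod (N k) → ℝ),
      Tendsto N atTop atTop ∧ (∀ k, 2 ≤ N k) ∧ (∀ k, IsWalk (μ k)) ∧
      (∀ k, 0 < Trel (μ k) ∧ Trel (μ k) ≤ 8) ∧
      Tendsto (fun k => (Tmix (μ k) (1 / 4) : ℝ) / Trel (μ k)) atTop atTop ∧
      ∀ ε : ℝ, 0 < ε → ε < 1 / 2 →
        1 < Real.log (1 / ε) / Real.log (1 / (1 - ε)) ∧
        Tendsto (fun k => (Tmix (μ k) ε : ℝ) / (Tmix (μ k) (1 - ε) : ℝ)) atTop
          (𝓝 (Real.log (1 / ε) / Real.log (1 / (1 - ε)))) :=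
  main

end Pool.Agent.Results.MP_7e070a_pr.NoCutoffOnCycles
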